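import Mathlib

/-!
# The Zeckendorf parity sequence as a coding of a fixed point of a morphism
-/

set_option autoImplicit false

namespace Pool.Agent.N533.ZK

open Nat

/-- the letter at position `n`: (last digit is one, parity of the number of digits) -/
def X (n : ℕ) : Bool × Bool :=
  if n = 0 then (false, false)
  else if n = 1 then (true, true)
  else ((X (n - fib (greatestFib n))).1, !(X (n - fib (greatestFib n))).2)
termination_by n
decreasing_by
  all_goals
    have h : 0 < fib (greatestFib n) := fib_pos.2 (greatestFib_pos.2 (by omega))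
    omega

theorem X_zero : X 0 = (false, false) := by rw [X]; simp
theorem X_one : X 1 = (true, true) := by rw [X]; simp

theorem greatest {k r : ℕ} (hk : 2 ≤ k) (hr : r < fib (k - 1)) : greatestFib (fib k + r) = k := by
  have h1 : fib (k + 1) = fib (k - 1) + fib k := by
    obtain ⟨m, rfl⟩ : ∃ m, k = m + 1 := ⟨k - 1, by omega⟩
    exact fib_add_two
  apply le_antisymm
  · have : greatestFib (fib k + r) < k + 1 := greatestFib_lt.2 (by omega)
    omega
  · exact le_greatestFib.2 (by omega)

theorem X_fib_add {k r : ℕ} (hk : 3 ≤ k) (hr : r < fib (k - 1)) :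
    X (fib k + r) = ((X r).1, !(X r).2) := by
  have h2 : 2 ≤ fib k := by
    calc 2 = fib 3 := rfl
      _ ≤ fib k := fib_mono hk
  rw [X, if_neg (by omega), if_neg (by omega), greatest (by omega) hr]
  simp

theorem s_fib_add {k r : ℕ} (hk : 2 ≤ k) (hr : r < fib (k - 1)) :
    (X (fib k + r)).2 = !(X r).2 := by
  rcases Nat.lt_or_ge 2 k with h | h
  · rw [X_fib_add h hr]
  · obtain rfl : k = 2 := by omega
    have : r = 0 := by simpa using hr
    subst this
    simp [X_zero, X_one]

/-- the second component is the parity of the number of Zeckendorf digits -/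
theorem X_snd (n : ℕ) : (X n).2 = decide ((zeckendorf n).length % 2 = 1) := by
  induction n using Nat.strong_induction_on with
  | _ n ih =>
    rcases Nat.eq_zero_or_pos n with rfl | hn
    · simp [X_zero]
    · have hg : 0 < fib (greatestFib n) := fib_pos.2 (greatestFib_pos.2 hn)
      have hle := fib_greatestFib_le n
      rw [zeckendorf_of_pos hn, List.length_cons]
      have key : (X n).2 = !(X (n - fib (greatestFib n))).2 := by
        rcases Nat.lt_or_ge 1 n with h1 | h1
        · rw [X, if_neg (by omega), if_neg (by omega)]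
        · obtain rfl : n = 1 := by omega
          have h2 : greatestFib 1 = 2 := by
            have := greatest (k := 2) (r := 0) le_rfl (by simp)
            simpa using this
          rw [h2]
          simp [X_zero, X_one]
      rw [key, ih _ (by omega)]
      rcases Nat.mod_two_eq_zero_or_one (zeckendorf (n - fib (greatestFib n))).length with h | h
      · have h' : ((zeckendorf (n - fib (greatestFib n))).length + 1) % 2 = 1 := by omega
        rw [h, h']; simp
      · have h' : ((zeckendorf (n - fib (greatestFib n))).length + 1) % 2 = 0 := by omega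
        rw [h, h']; simp

/-- the position of the image of the `n`-th letter -/
def P : ℕ → ℕ
  | 0 => 0
  | n + 1 => P n + (if (X n).1 then 1 else 2)

theorem P_succ (n : ℕ) : P (n + 1) = P n + (if (X n).1 then 1 else 2) := rfl

theorem P_lt_succ (n : ℕ) : P n < P (n + 1) := by
  rw [P_succ]; split_ifs <;> omega

theorem P_strictMono : StrictMono P := strictMono_nat_of_lt_succ P_lt_succ

theorem P_zero : P 0 = 0 := rfl
theorem P_one : P 1 = 2 := by rw [P_succ, P_zero, X_zero]; simp
theorem P_two : P 2 = 3 := by rw [P_succ, P_one, X_one]; simp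

theorem P_add {k : ℕ} (hk : 3 ≤ k) (h : P (fib k) = fib (k + 1)) :
    ∀ r, r ≤ fib (k - 1) → P (fib k + r) = fib (k + 1) + P r := by
  intro r
  induction r with
  | zero => intro _; simpa [P_zero] using h
  | succ r ih =>
    intro hr
    rw [← Nat.add_assoc, P_succ, ih (by omega), P_succ, X_fib_add hk (by omega)]
    ring

theorem P_fib : ∀ k, P (fib (k + 2)) = fib (k + 3) ∧ P (fib (k + 3)) = fib (k + 4) := by
  intro k
  induction k with
  | zero => exact ⟨P_one, P_two⟩
  | succ k ih =>
    refine ⟨ih.2, ?_⟩
    have e1 : fib (k + 1 + 3) = fib (k + 3) + fib (k + 2) := by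
      rw [show k + 1 + 3 = (k + 2) + 2 by ring, fib_add_two]; ring
    have e2 : fib (k + 1 + 4) = fib (k + 4) + fib (k + 3) := by
      rw [show k + 1 + 4 = (k + 3) + 2 by ring, fib_add_two]; ring
    rw [e1, P_add (k := k + 3) (by omega) ih.2 (fib (k + 2)) (by simp), ih.1, e2]

theorem P_fib' {k : ℕ} (hk : 2 ≤ k) : P (fib k) = fib (k + 1) := by
  obtain ⟨m, rfl⟩ : ∃ m, k = m + 2 := ⟨k - 2, by omega⟩
  exact (P_fib m).1

theorem P_fib_add {k r : ℕ} (hk : 3 ≤ k) (hr : r ≤ fib (k - 1)) :
    P (fib k + r) = fib (k + 1) + P r := P_add hk (P_fib' (by omega)) r hr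

/-- decomposition with the largest Fibonacci number -/
theorem decomp {n : ℕ} (hn : 2 ≤ n) : ∃ k r, 3 ≤ k ∧ r < fib (k - 1) ∧ n = fib k + r := by
  refine ⟨greatestFib n, n - fib (greatestFib n), ?_, ?_, ?_⟩
  · exact le_greatestFib.2 hn
  · have h3 : 3 ≤ greatestFib n := le_greatestFib.2 hn
    have h1 := lt_fib_greatestFib_add_one n
    have h2 : fib (greatestFib n + 1) = fib (greatestFib n - 1) + fib (greatestFib n) := by
      obtain ⟨m, hm⟩ : ∃ m, greatestFib n = m + 1 := ⟨greatestFib n - 1, by omega⟩
      rw [hm]; exact fib_add_two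
    have := fib_greatestFib_le n
    omega
  · have := fib_greatestFib_le n
    omega

/-- the morphism -/
theorem X_P (n : ℕ) : X (P n) = (false, (X n).2) ∧
    ((X n).1 = false → X (P n + 1) = (true, !(X n).2)) := by
  induction n using Nat.strong_induction_on with
  | _ n ih =>
    rcases Nat.lt_or_ge 1 n with h1 | h1
    · obtain ⟨k, r, hk, hr, rfl⟩ := decomp h1
      have hfk : fib (k - 1) ≤ fib k := fib_mono (by omega)
      have hpos : 0 < fib k := fib_pos.2 (by omega)
      have hPk : P (fib (k - 1)) = fib k := by
        have := P_fib' (k := k - 1) (by omega)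
        rwa [show k - 1 + 1 = k by omega] at this
      have hlt : P r < fib k := by
        rw [← hPk]; exact P_strictMono hr
      obtain ⟨i1, i2⟩ := ih r (by omega)
      rw [P_fib_add hk hr.le, X_fib_add hk hr]
      refine ⟨?_, ?_⟩
      · rw [X_fib_add (by omega) (by simpa using hlt), i1]
      · intro ht
        have hlt2 : P r + 1 < fib k := by
          have h5 : P (r + 1) ≤ fib k := by
            rw [← hPk]; exact P_strictMono.monotone hr
          rw [P_succ, ht] at h5
          simp at h5
          omega
        rw [Nat.add_assoc, X_fib_add (by omega) (by simpa using hlt2), i2 ht]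
    · interval_cases n
      · refine ⟨by simp [P_zero, X_zero], fun _ => by simp [P_zero, X_zero, X_one]⟩
      · have h2 : X 2 = (false, true) := by
          have := X_fib_add (k := 3) (r := 0) le_rfl (by simp)
          rw [X_zero, Nat.add_zero, show fib 3 = 2 from rfl] at this
          simpa using this
        refine ⟨by rw [P_one, h2, X_one], fun h => by simp [X_one] at h⟩

/-- every position is in a block -/
theorem exists_block (m : ℕ) : ∃ n, P n ≤ m ∧ m < P (n + 1) := by
  induction m with
  | zero => exact ⟨0, by rw [P_zero], by rw [P_one]; omega⟩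
  | succ m ih =>
    obtain ⟨n, h1, h2⟩ := ih
    rcases Nat.lt_or_ge (m + 1) (P (n + 1)) with h | h
    · exact ⟨n, by omega, h⟩
    · refine ⟨n + 1, by omega, ?_⟩
      have := P_lt_succ (n + 1)
      omega

theorem block_cases (m : ℕ) : ∃ n, (m = P n) ∨ (m = P n + 1 ∧ (X n).1 = false) := by
  obtain ⟨n, h1, h2⟩ := exists_block m
  refine ⟨n, ?_⟩
  rw [P_succ] at h2
  cases h : (X n).1 with
  | false =>
    simp [h] at h2
    rcases Nat.lt_or_ge (P n) m with h3 | h3
    · exact Or.inr ⟨by omega, rfl⟩
    · exact Or.inl (by omega)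
  | true => simp [h] at h2; left; omega

theorem of_typeA {m : ℕ} (h : (X m).1 = false) : ∃ n, m = P n := by
  obtain ⟨n, rfl | ⟨rfl, h2⟩⟩ := block_cases m
  · exact ⟨n, rfl⟩
  · rw [(X_P n).2 h2] at h
    simp at h

theorem after_typeB {m : ℕ} (h : (X m).1 = true) : (X (m + 1)).1 = false := by
  obtain ⟨n, rfl | ⟨rfl, h2⟩⟩ := block_cases m
  · rw [(X_P n).1] at h
    simp at h
  · have h3 : P (n + 1) = P n + 2 := by rw [P_succ, h2]; simp
    rw [show P n + 1 + 1 = P (n + 1) by omega, (X_P (n + 1)).1]

/-- `X (P n + 1)` has type A if `X n` has type B -/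
theorem X_P_succ_of_B {n : ℕ} (h : (X n).1 = true) : (X (P n + 1)).1 = false := by
  have h3 : P (n + 1) = P n + 1 := by rw [P_succ, h]; simp
  rw [← h3, (X_P (n + 1)).1]

end Pool.Agent.N533.ZK
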