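import Mathlib
import Pool.Agent.N533.ZK.A

/-!
# Runs of agreement and the morphism
-/

set_option autoImplicit false

namespace Pool.Agent.N533.ZK

open Nat

/-- maximal agreements ending before position `N` have length at most `r` -/
def Run (N : ℕ) (r : ℝ) : Prop := ∀ p q t : ℕ, p < q → q + t < N →
  (∀ u < t, X (p + u) = X (q + u)) → X (p + t) ≠ X (q + t) → (t : ℝ) ≤ r

/-- agreement of letters gives agreement of the images -/
theorem agree_up {p q : ℕ} : ∀ T : ℕ, (∀ u < T, X (p + u) = X (q + u)) →
    P (p + T) + P q = P (q + T) + P p ∧ ∀ n, P p + n < P (p + T) → X (P p + n) = X (P q + n) := by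
  intro T
  induction T with
  | zero => intro _; exact ⟨by simp [Nat.add_comm], fun n hn => by simp at hn⟩
  | succ T ih =>
    intro h
    obtain ⟨i1, i2⟩ := ih fun u hu => h u (by omega)
    have hT := h T (by omega)
    have e1 : P (p + (T + 1)) = P (p + T) + (if (X (p + T)).1 then 1 else 2) := by
      rw [← Nat.add_assoc, P_succ]
    have e2 : P (q + (T + 1)) = P (q + T) + (if (X (q + T)).1 then 1 else 2) := by
      rw [← Nat.add_assoc, P_succ]
    refine ⟨by rw [e1, e2, hT]; omega, ?_⟩
    intro n hn
    rcases Nat.lt_or_ge (P p + n) (P (p + T)) with h1 | h1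
    · exact i2 n h1
    · have hm1 : P p ≤ P (p + T) := P_strictMono.monotone (by omega)
      have hm2 : P q ≤ P (q + T) := P_strictMono.monotone (by omega)
      rw [e1] at hn
      cases hA : (X (p + T)).1 with
      | true =>
        rw [hA] at hn
        simp at hn
        rw [show P p + n = P (p + T) by omega, show P q + n = P (q + T) by omega,
          (X_P (p + T)).1, (X_P (q + T)).1, hT]
      | false =>
        rw [hA] at hn
        simp at hn
        rcases Nat.lt_or_ge (P (p + T)) (P p + n) with h2 | h2
        · rw [show P p + n = P (p + T) + 1 by omega, show P q + n = P (q + T) + 1 by omega,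
            (X_P (p + T)).2 hA, (X_P (q + T)).2 (hT ▸ hA), hT]
        · rw [show P p + n = P (p + T) by omega, show P q + n = P (q + T) by omega,
            (X_P (p + T)).1, (X_P (q + T)).1, hT]

/-- disagreement of letters gives disagreement of the images after at most one letter -/
theorem disagree_up {i j : ℕ} (h : X i ≠ X j) : X (P i) ≠ X (P j) ∨ X (P i + 1) ≠ X (P j + 1) := by
  by_contra hc
  push Not at hc
  obtain ⟨h1, h2⟩ := hc
  rw [(X_P i).1, (X_P j).1] at h1
  have hs : (X i).2 = (X j).2 := by simpa using h1
  apply h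
  refine Prod.ext ?_ hs
  cases hi : (X i).1 with
  | true =>
    cases hj : (X j).1 with
    | true => rfl
    | false =>
      have h3 := X_P_succ_of_B hi
      rw [h2, (X_P j).2 hj] at h3
      simp at h3
  | false =>
    cases hj : (X j).1 with
    | true =>
      have h3 := X_P_succ_of_B hj
      rw [← h2, (X_P i).2 hi] at h3
      simp at h3
    | false => rfl

/-- the golden ratio -/
noncomputable abbrev gr : ℝ := Real.goldenRatio

theorem gr_lt : gr < 1.6181 := by
  have h : √5 < 2.2361 := by
    rw [Real.sqrt_lt' (by norm_num)]; norm_num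
  unfold gr Real.goldenRatio
  linarith

theorem gr_gt : 1.618 < gr := by
  have h : 2.236 < √5 := Real.lt_sqrt_of_sq_lt (by norm_num)
  unfold gr Real.goldenRatio
  linarith

theorem gr_sq : gr ^ 2 = gr + 1 := Real.goldenRatio_sq

theorem fib_near (k : ℕ) : |(fib (k + 1) : ℝ) - gr * fib k| = (gr - 1) ^ k := by
  have g0 : 0 < gr - 1 := by have := gr_gt; linarith
  have := Real.fib_succ_sub_goldenRatio_mul_fib k
  rw [this, abs_pow]
  congr 1
  have h2 : Real.goldenConj = 1 - gr := by
    have := Real.goldenRatio_add_goldenConj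
    unfold gr; linarith
  rw [h2, abs_of_neg (by linarith)]
  ring

/-- `P n` is close to `gr * n` -/
theorem P_near : ∀ m n : ℕ, n < fib (m + 2) →
    |(P n : ℝ) - gr * n| ≤ (gr - 1) - (gr - 1) ^ (m + 2) := by
  have g0 : 0 < gr - 1 := by have := gr_gt; linarith
  have g1 : gr - 1 < 1 := by have := gr_lt; linarith
  have gs : (gr - 1) ^ 2 = 1 - (gr - 1) := by
    have := gr_sq
    nlinarith
  have gp : ∀ k : ℕ, (gr - 1) ^ (k + 2) = (gr - 1) ^ k - (gr - 1) ^ (k + 1) := by
    intro k
    rw [pow_add, gs]; ring
  intro m
  induction m using Nat.strong_induction_on with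
  | _ m ih =>
    intro n hn
    rcases Nat.eq_zero_or_pos m with rfl | hm
    · have : n = 0 := by simpa using hn
      subst this
      simp only [P_zero, Nat.cast_zero, mul_zero, sub_zero, abs_zero]
      have : (gr - 1) ^ (0 + 2) ≤ (gr - 1) ^ 1 := pow_le_pow_of_le_one g0.le g1.le (by norm_num)
      linarith [pow_one (gr - 1)]
    · obtain ⟨m, rfl⟩ : ∃ m', m = m' + 1 := ⟨m - 1, by omega⟩
      rcases Nat.lt_or_ge n (fib (m + 2)) with h | h
      · have h1 := ih m (by omega) n h
        have h2 : (gr - 1) ^ (m + 1 + 2) ≤ (gr - 1) ^ (m + 2) :=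
          pow_le_pow_of_le_one g0.le g1.le (by omega)
        linarith
      · obtain ⟨r, rfl⟩ : ∃ r, n = fib (m + 2) + r := ⟨n - fib (m + 2), by omega⟩
        have hf : fib (m + 1 + 2) = fib (m + 1) + fib (m + 2) := fib_add_two
        have hr : r < fib (m + 1) := by omega
        have hP : P (fib (m + 2) + r) = fib (m + 3) + P r := by
          rcases Nat.eq_zero_or_pos m with rfl | hm
          · have : r = 0 := by simpa using hr
            subst this
            simp [P_one, P_zero]; rfl
          · exact P_fib_add (by omega) (by simpa using hr.le)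
        have key : |((P r : ℝ) - gr * r)| ≤ (gr - 1) - (gr - 1) ^ (m + 1) := by
          rcases Nat.eq_zero_or_pos m with rfl | hm
          · have : r = 0 := by simpa using hr
            subst this
            simp [P_zero]
          · obtain ⟨m', rfl⟩ : ∃ m', m = m' + 1 := ⟨m - 1, by omega⟩
            exact ih m' (by omega) r (by simpa using hr)
        rw [hP]
        push_cast
        calc |(fib (m + 3) : ℝ) + P r - gr * (fib (m + 2) + r)|
            = |((fib (m + 2 + 1) : ℝ) - gr * fib (m + 2)) + (P r - gr * r)| := by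
              congr 1; ring
          _ ≤ |(fib (m + 2 + 1) : ℝ) - gr * fib (m + 2)| + |(P r : ℝ) - gr * r| := abs_add_le _ _
          _ ≤ (gr - 1) ^ (m + 2) + ((gr - 1) - (gr - 1) ^ (m + 1)) := by
              rw [fib_near]; linarith
          _ = (gr - 1) - (gr - 1) ^ (m + 1 + 2) := by
              have := gp (m + 1)
              rw [this]; ring

theorem P_near' (n : ℕ) : |(P n : ℝ) - gr * n| ≤ 0.6181 := by
  have g0 : 0 < gr - 1 := by have := gr_gt; linarith
  have h1 : n < fib (n + 2) := by
    have := Nat.le_fib_add_one (n + 2)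
    omega
  have h2 := P_near n n h1
  have h3 : 0 < (gr - 1) ^ (n + 2) := by positivity
  have := gr_lt
  linarith

theorem P_diff (n T : ℕ) : (P (n + T) : ℝ) - P n ≤ gr * T + 1.24 := by
  have h1 := abs_le.1 (P_near' (n + T))
  have h2 := abs_le.1 (P_near' n)
  push_cast at h1
  nlinarith [h1.2, h2.1]

/-- the step -/
theorem Run.up {N : ℕ} {r : ℝ} (hr : 0 ≤ r) (h : Run N r) : Run (P N) (gr * r + 4) := by
  intro p q t hpq hN hag hne
  have hg := gr_gt
  have hg0 : 0 ≤ gr * r := by positivity
  rcases Nat.lt_or_ge t 2 with ht | ht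
  · have : (t : ℝ) ≤ 1 := by exact_mod_cast (by omega : t ≤ 1)
    linarith
  -- the first letter of type A
  obtain ⟨u0, hu0, hA⟩ : ∃ u0, u0 ≤ 1 ∧ (X (p + u0)).1 = false := by
    cases hB : (X p).1 with
    | false => exact ⟨0, by omega, by simpa using hB⟩
    | true => exact ⟨1, le_rfl, after_typeB hB⟩
  have hA' : (X (q + u0)).1 = false := by rw [← hag u0 (by omega)]; exact hA
  obtain ⟨p', hp'⟩ := of_typeA hA
  obtain ⟨q', hq'⟩ := of_typeA hA'
  have hpq' : p' < q' := by
    have : P p' < P q' := by omega
    exact P_strictMono.lt_iff_lt.1 this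
  -- the first mismatch below
  have hex : ∃ T, X (p' + T) ≠ X (q' + T) := by
    by_contra hc
    push Not at hc
    have h1 := (agree_up (p := p') (q := q') (t + 1) fun u _ => hc u).2 (t - u0) (by
      have h2 : P p' + (t + 1) ≤ P (p' + (t + 1)) := by
        clear hag hne
        induction t + 1 with
        | zero => simp
        | succ k ih => have := P_lt_succ (p' + k); rw [← Nat.add_assoc p' k 1]; omega
      omega)
    rw [← hp', ← hq', show p + u0 + (t - u0) = p + t by omega,
      show q + u0 + (t - u0) = q + t by omega] at h1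
    exact hne h1
  classical
  let T := Nat.find hex
  have hT : X (p' + T) ≠ X (q' + T) := Nat.find_spec hex
  have hTm : ∀ u < T, X (p' + u) = X (q' + u) := fun u hu => by
    have := Nat.find_min hex hu
    push Not at this
    exact this
  obtain ⟨hlen, hup⟩ := agree_up T hTm
  have hPm : P p' ≤ P (p' + T) := P_strictMono.monotone (by omega)
  -- lower bound for `t`
  have ht1 : P (p' + T) ≤ p + t := by
    by_contra hc
    push Not at hc
    have h1 := hup (t - u0) (by omega)
    rw [← hp', ← hq', show p + u0 + (t - u0) = p + t by omega,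
      show q + u0 + (t - u0) = q + t by omega] at h1
    exact hne h1
  -- upper bound for `t`
  have ht2 : p + t ≤ P (p' + T) + 1 := by
    by_contra hc
    push Not at hc
    have hag' : ∀ e, e ≤ 1 → X (P (p' + T) + e) = X (P (q' + T) + e) := by
      intro e he
      have h1 := hag (P (p' + T) + e - p) (by omega)
      rwa [show p + (P (p' + T) + e - p) = P (p' + T) + e by omega,
        show q + (P (p' + T) + e - p) = P (q' + T) + e by omega] at h1
    rcases disagree_up hT with h1 | h1
    · exact h1 (by simpa using hag' 0 (by omega))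
    · exact h1 (hag' 1 le_rfl)
  have hj : q' + T < N := by
    have : P (q' + T) < P N := by omega
    exact P_strictMono.lt_iff_lt.1 this
  have hTr : (T : ℝ) ≤ r := h p' q' T hpq' hj hTm hT
  have hd := P_diff p' T
  have h5 : (t : ℝ) ≤ (P (p' + T) : ℝ) - P p' + 2 := by
    have : t + P p' ≤ P (p' + T) + 2 := by omega
    have : (t : ℝ) + P p' ≤ P (p' + T) + 2 := by exact_mod_cast this
    linarith
  have h6 : gr * T ≤ gr * r := mul_le_mul_of_nonneg_left hTr (by linarith)
  linarith

end Pool.Agent.N533.ZK
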