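import Mathlib
import Pool.Agent.N533.ZK.B

/-!
# Finite checks: the base case and the windows of length four
-/

set_option autoImplicit false

namespace Pool.Agent.N533.ZK

open Nat

/-- letters -/
abbrev Lt : Type := Bool × Bool

/-- the prefixes of length `fib (k + 2)` -/
def XL : ℕ → List Lt
  | 0 => [(false, false)]
  | 1 => [(false, false), (true, true)]
  | k + 2 => XL (k + 1) ++ (XL k).map fun a => (a.1, !a.2)

theorem XL_length : ∀ k, (XL k).length = fib (k + 2)
  | 0 => rfl
  | 1 => rfl
  | k + 2 => by
    rw [XL, List.length_append, List.length_map, XL_length (k + 1), XL_length k]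
    have h : fib (k + 2 + 2) = fib (k + 2) + fib (k + 1 + 2) := fib_add_two
    rw [h, Nat.add_comm]

theorem XL_get : ∀ k n, n < fib (k + 2) → (XL k)[n]? = some (X n)
  | 0, n, h => by
    have : n = 0 := by simpa using h
    subst this
    simp [XL, X_zero]
  | 1, n, h => by
    have h2 : n < 2 := h
    interval_cases n <;> simp [XL, X_zero, X_one]
  | k + 2, n, h => by
    rw [XL]
    rcases Nat.lt_or_ge n (fib (k + 1 + 2)) with h1 | h1
    · rw [List.getElem?_append_left (by rw [XL_length]; exact h1)]
      exact XL_get (k + 1) n h1
    · obtain ⟨r, rfl⟩ : ∃ r, n = fib (k + 3) + r := ⟨n - fib (k + 3), by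
        have : k + 1 + 2 = k + 3 := by ring
        rw [this] at h1; omega⟩
      have hf : fib (k + 2 + 2) = fib (k + 2) + fib (k + 3) := fib_add_two
      have hr : r < fib (k + 2) := by omega
      rw [List.getElem?_append_right (by rw [XL_length]; omega), XL_length, List.getElem?_map,
        show fib (k + 3) + r - fib (k + 1 + 2) = r by
          rw [show k + 1 + 2 = k + 3 by ring]; omega,
        XL_get k r hr, X_fib_add (by omega) (by simpa using hr)]
      rfl

/-- scan two lists in parallel and check that maximal agreements have length at most `R` -/
def scan (R : ℕ) : ℕ → List Lt → List Lt → Bool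
  | _, [], _ => true
  | _, _ :: _, [] => true
  | run, a :: l, b :: m => if a = b then scan R (run + 1) l m else (Nat.ble run R) && scan R 0 l m

theorem scan_spec (R : ℕ) : ∀ (l m : List Lt) (run : ℕ), scan R run l m = true →
    ∀ p t : ℕ, p + t < l.length → p + t < m.length → (∀ u < t, l[p + u]? = m[p + u]?) →
      l[p + t]? ≠ m[p + t]? → t ≤ R ∧ (p = 0 → run + t ≤ R) := by
  intro l
  induction l with
  | nil => intro m run _ p t h; simp at h
  | cons a l ih =>
    intro m run hs p t h1 h2 hag hne
    cases m with
    | nil => simp at h2
    | cons b m =>
      rw [scan] at hs
      rw [List.length_cons] at h1 h2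
      rcases Nat.eq_zero_or_pos p with rfl | hp
      · rcases Nat.eq_zero_or_pos t with rfl | ht
        · have hab : a ≠ b := by
            intro h; apply hne; simp [h]
          rw [if_neg hab] at hs
          simp only [Bool.and_eq_true, Nat.ble_eq] at hs
          exact ⟨by omega, fun _ => by omega⟩
        · obtain ⟨t, rfl⟩ : ∃ t', t = t' + 1 := ⟨t - 1, by omega⟩
          have hab : a = b := by
            have := hag 0 (by omega)
            simpa using this
          rw [if_pos hab] at hs
          have := ih m (run + 1) hs 0 t (by omega) (by omega)
            (fun u hu => by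
              have h3 := hag (u + 1) (by omega)
              simpa using h3) (by
              intro h3; apply hne
              simpa using h3)
          have h4 := this.2 rfl
          exact ⟨by omega, fun _ => by omega⟩
      · obtain ⟨p, rfl⟩ : ∃ p', p = p' + 1 := ⟨p - 1, by omega⟩
        have gen : ∀ run', scan R run' l m = true → t ≤ R := fun run' hs' =>
          (ih m run' hs' p t (by omega) (by omega)
            (fun u hu => by
              have h3 := hag u hu
              rw [show p + 1 + u = (p + u) + 1 by ring] at h3
              simpa using h3) (by
              intro h3; apply hne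
              rw [show p + 1 + t = (p + t) + 1 by ring]
              simpa using h3)).1
        refine ⟨?_, fun h => by omega⟩
        split_ifs at hs with hab
        · exact gen _ hs
        · simp only [Bool.and_eq_true] at hs
          exact gen _ hs.2

/-- the finite check -/
def check (k N R : ℕ) : Bool :=
  (List.range N).all fun d => scan R 0 ((XL k).take N) (((XL k).take N).drop (d + 1))

theorem run_of_check {k N R : ℕ} (hk : N ≤ fib (k + 2)) (h : check k N R = true) : Run N R := by
  intro p q t hpq hN hag hne
  rw [check, List.all_eq_true] at h
  have h1 := h (q - p - 1) (List.mem_range.2 (by omega))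
  have hd : q - p - 1 + 1 = q - p := by omega
  rw [hd] at h1
  have hlen : ((XL k).take N).length = N := by rw [List.length_take, XL_length]; omega
  have hg : ∀ n < N, ((XL k).take N)[n]? = some (X n) := by
    intro n hn
    rw [List.getElem?_take_of_lt hn]
    exact XL_get k n (by omega)
  have h2 := scan_spec R _ _ 0 h1 p t (by omega) (by rw [List.length_drop]; omega)
    (fun u hu => by
      rw [List.getElem?_drop, hg _ (by omega), hg _ (by omega),
        show q - p + (p + u) = q + u by omega, hag u hu])
    (by
      rw [List.getElem?_drop, hg _ (by omega), hg _ (by omega),
        show q - p + (p + t) = q + t by omega]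
      simpa using hne)
  exact_mod_cast h2.1

/-- the morphism on letters -/
def sg (a : Lt) : List Lt := if a.1 then [(false, a.2)] else [(false, a.2), (true, !a.2)]

theorem flat_get : ∀ (l : List Lt) (n : ℕ), (∀ i < l.length, l[i]? = some (X (n + i))) →
    ∀ j < (l.flatMap sg).length, (l.flatMap sg)[j]? = some (X (P n + j)) := by
  intro l
  induction l with
  | nil => intro n _ j hj; simp at hj
  | cons a l ih =>
    intro n h j hj
    have ha : a = X n := by
      have := h 0 (by simp)
      simpa using this
    have ih' := ih (n + 1) (fun i hi => by
      have := h (i + 1) (by simp; omega)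
      rw [show n + 1 + i = n + (i + 1) by ring]
      simpa using this)
    rw [List.flatMap_cons] at hj ⊢
    rw [List.length_append] at hj
    cases hA : a.1 with
    | true =>
      have hsg : sg a = [(false, a.2)] := by simp [sg, hA]
      have hP : P (n + 1) = P n + 1 := by rw [P_succ, ← ha, hA]; simp
      rw [hsg] at hj ⊢
      rcases j with _ | j
      · simp [(X_P n).1, ha]
      · have := ih' j (by simp only [List.length_cons, List.length_nil] at hj; omega)
        rw [hP] at this
        rw [show P n + (j + 1) = P n + 1 + j by ring, ← this]
        simp
    | false =>
      have hsg : sg a = [(false, a.2), (true, !a.2)] := by simp [sg, hA]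
      have hP : P (n + 1) = P n + 2 := by rw [P_succ, ← ha, hA]; simp
      rw [hsg] at hj ⊢
      rcases j with _ | _ | j
      · simp [(X_P n).1, ha]
      · simp [(X_P n).2 (ha ▸ hA), ha]
      · have := ih' j (by simp only [List.length_cons, List.length_nil] at hj; omega)
        rw [hP] at this
        rw [show P n + (j + 1 + 1) = P n + 2 + j by ring, ← this]
        simp

/-- the windows of length four -/
def W : List (List Lt) := ((List.range 80).map fun n => ((XL 9).drop n).take 4).dedup

/-- the window at `n` -/
def win (n : ℕ) : List Lt := [X n, X (n + 1), X (n + 2), X (n + 3)]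

def closed : Bool := W.all fun w =>
  (W.contains ((w.flatMap sg).take 4)) &&
    ((match w with | a :: _ => a.1 | [] => true) || W.contains (((w.flatMap sg).drop 1).take 4))

theorem closed_true : closed = true := by decide +kernel

def recog : Bool := W.all fun w => W.all fun w' =>
  !(w.map Prod.snd == w'.map Prod.snd) || (w[1]? == w'[1]?)

theorem recog_true : recog = true := by decide +kernel

theorem win_get (n i : ℕ) (hi : i < (win n).length) : (win n)[i]? = some (X (n + i)) := by
  have : i < 4 := hi
  interval_cases i <;> simp [win]

theorem len_flat (l : List Lt) : l.length ≤ (l.flatMap sg).length := by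
  induction l with
  | nil => simp
  | cons a l ih =>
    rw [List.flatMap_cons, List.length_append, List.length_cons]
    have : 1 ≤ (sg a).length := by unfold sg; split_ifs <;> simp
    omega

theorem take_eq_win {L : List Lt} {n : ℕ} (_h4 : 4 ≤ L.length)
    (h : ∀ i < 4, L[i]? = some (X (n + i))) : L.take 4 = win n := by
  apply List.ext_getElem?
  intro i
  rcases Nat.lt_or_ge i 4 with hi | hi
  · rw [List.getElem?_take_of_lt hi, h i hi, win_get n i (by simpa [win] using hi)]
  · rw [List.getElem?_eq_none (by simp; omega), List.getElem?_eq_none (by simp [win]; omega)]

theorem win_mem (n : ℕ) : win n ∈ W := by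
  induction n using Nat.strong_induction_on with
  | _ n ih =>
    have hc := closed_true
    rw [closed, List.all_eq_true] at hc
    obtain ⟨n', hn'⟩ := block_cases n
    have hPn : n' ≤ P n' := P_strictMono.id_le n'
    have hlen := len_flat (win n')
    have hl4 : (win n').length = 4 := rfl
    have hfl := flat_get (win n') n' (win_get n')
    rcases hn' with rfl | ⟨rfl, hA⟩
    · rcases Nat.eq_zero_or_pos n' with rfl | hpos
      · have : win (P 0) = ((XL 9).drop 0).take 4 := by
          symm
          apply take_eq_win
          · simp [XL_length]; decide
          · intro i hi
            rw [List.getElem?_drop, XL_get 9 (0 + i) (by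
              have : (4 : ℕ) < fib (9 + 2) := by decide
              omega)]
            simp [P_zero]
        rw [this]
        decide +kernel
      · have hlt : n' < P n' := by
          have h1 : P 1 + (n' - 1) ≤ P n' := by
            clear ih hPn hlen hl4 hfl
            induction n' with
            | zero => omega
            | succ m ihm =>
              rcases Nat.eq_zero_or_pos m with rfl | hm
              · simp
              · have := ihm hm
                have := P_lt_succ m
                omega
          rw [P_one] at h1
          omega
        have hw := hc _ (ih n' hlt)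
        simp only [Bool.and_eq_true] at hw
        have h2 : ((win n').flatMap sg).take 4 = win (P n') :=
          take_eq_win (by omega) fun i hi => hfl i (by omega)
        rw [h2] at hw
        exact List.contains_iff_mem.1 hw.1
    · have hw := hc _ (ih n' (by omega))
      simp only [Bool.and_eq_true] at hw
      have h5 : 5 ≤ ((win n').flatMap sg).length := by
        rw [win, List.flatMap_cons, List.length_append]
        have h6 : (sg (X n')).length = 2 := by simp [sg, hA]
        have := len_flat [X (n' + 1), X (n' + 2), X (n' + 3)]
        simp only [List.length_cons, List.length_nil] at this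
        omega
      have h2 : (((win n').flatMap sg).drop 1).take 4 = win (P n' + 1) := by
        apply take_eq_win
        · rw [List.length_drop]; omega
        · intro i hi
          rw [List.getElem?_drop, hfl _ (by omega), show P n' + 1 + i = P n' + (1 + i) by ring]
      rw [h2] at hw
      have h7 := hw.2
      simp only [win, hA, Bool.false_or] at h7
      exact List.contains_iff_mem.1 h7

/-- recognizability -/
theorem recognize {n m : ℕ} (h : ∀ u < 4, (X (n + u)).2 = (X (m + u)).2) :
    X (n + 1) = X (m + 1) := by
  have hr := recog_true
  rw [recog, List.all_eq_true] at hr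
  have h1 := hr _ (win_mem n)
  rw [List.all_eq_true] at h1
  have h2 := h1 _ (win_mem m)
  have h3 : (win n).map Prod.snd = (win m).map Prod.snd := by
    have e0 := h 0 (by omega)
    have e1 := h 1 (by omega)
    have e2 := h 2 (by omega)
    have e3 := h 3 (by omega)
    simp only [Nat.add_zero] at e0
    simp [win, e0, e1, e2, e3]
  rw [h3] at h2
  simpa [win] using h2

end Pool.Agent.N533.ZK
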