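import Mathlib
import Pool.Agent.N533.ZK.C

/-!
# Bounds for the length of runs at `fib m + fib (m - 2)`
-/

set_option autoImplicit false

namespace Pool.Agent.N533.ZK

open Nat

theorem base_check : check 12 322 55 = true := by decide +kernel

theorem base : Run 322 55 := by
  have h : (322 : ℕ) ≤ fib (12 + 2) := by decide
  have := run_of_check h base_check
  exact_mod_cast this

theorem P_near_gr (n : ℕ) : |(P n : ℝ) - gr * n| ≤ gr - 1 := by
  have g0 : 0 < gr - 1 := by have := gr_gt; linarith
  have h1 : n < fib (n + 2) := by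
    have := Nat.le_fib_add_one (n + 2)
    omega
  have h2 := P_near n n h1
  have h3 : 0 < (gr - 1) ^ (n + 2) := by positivity
  linarith

/-- the positions `fib (k + 13) + fib (k + 11)` -/
def NN (k : ℕ) : ℕ := fib (k + 13) + fib (k + 11)

theorem NN_succ (k : ℕ) : P (NN k) = NN (k + 1) := by
  unfold NN
  rw [P_fib_add (by omega) (fib_mono (by omega)), P_fib' (by omega)]

theorem NN_lower (k : ℕ) : gr ^ k * 321 ≤ (NN k : ℝ) - 1 := by
  have hg := gr_gt
  induction k with
  | zero =>
    have : NN 0 = 322 := by decide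
    rw [this]; norm_num
  | succ k ih =>
    rw [← NN_succ]
    have h := (abs_le.1 (P_near_gr (NN k))).1
    have h2 : gr * (gr ^ k * 321) ≤ gr * ((NN k : ℝ) - 1) :=
      mul_le_mul_of_nonneg_left ih (by linarith)
    rw [pow_succ]
    nlinarith

theorem run_NN (k : ℕ) : Run (NN k) (gr ^ k * (55 + 4 * gr) - 4 * gr) := by
  have hg := gr_gt
  induction k with
  | zero =>
    have h : NN 0 = 322 := by decide
    rw [h, pow_zero]
    have : (1 * (55 + 4 * gr) - 4 * gr : ℝ) = 55 := by ring
    rw [this]
    exact base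
  | succ k ih =>
    rw [← NN_succ]
    have h1 : (1 : ℝ) ≤ gr ^ k := one_le_pow₀ (by linarith)
    have h0 : 0 ≤ gr ^ k * (55 + 4 * gr) - 4 * gr := by nlinarith
    have h2 := ih.up h0
    have h3 : gr * (gr ^ k * (55 + 4 * gr) - 4 * gr) + 4 =
        gr ^ (k + 1) * (55 + 4 * gr) - 4 * gr := by
      have := gr_sq
      rw [pow_succ]
      linear_combination (-4) * this
    rwa [h3] at h2

/-- long windows of signs determine the next sign -/
theorem next_sign {N K : ℕ} {r : ℝ} (h : Run N r) (hK : 4 ≤ K) (hr : r + 3 < K) {i j : ℕ}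
    (hij : i < j) (hj : j + K < N) (hw : ∀ t < K, (X (i + t)).2 = (X (j + t)).2) :
    (X (i + K)).2 = (X (j + K)).2 := by
  by_contra hne
  have hex : ∃ t, X (i + 1 + t) ≠ X (j + 1 + t) := ⟨K - 1, by
    rw [show i + 1 + (K - 1) = i + K by omega, show j + 1 + (K - 1) = j + K by omega]
    intro h2
    exact hne (by rw [h2])⟩
  classical
  let t := Nat.find hex
  have ht : X (i + 1 + t) ≠ X (j + 1 + t) := Nat.find_spec hex
  have htm : ∀ u < t, X (i + 1 + u) = X (j + 1 + u) := fun u hu => by
    have := Nat.find_min hex hu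
    push Not at this
    exact this
  have ht1 : t ≤ K - 1 := Nat.find_min' hex (by
    rw [show i + 1 + (K - 1) = i + K by omega, show j + 1 + (K - 1) = j + K by omega]
    intro h2
    exact hne (by rw [h2]))
  have ht2 : K - 3 ≤ t := by
    by_contra hc
    apply ht
    have := recognize (n := i + t) (m := j + t) (fun u hu => by
      have := hw (t + u) (by omega)
      rwa [← Nat.add_assoc, ← Nat.add_assoc] at this)
    rwa [show i + 1 + t = i + t + 1 by ring, show j + 1 + t = j + t + 1 by ring]
  have h3 := h (i + 1) (j + 1) t (by omega) (by omega) htm ht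
  have h4 : (K : ℝ) - 3 ≤ t := by
    have : K ≤ t + 3 := by omega
    have : (K : ℝ) ≤ t + 3 := by exact_mod_cast this
    linarith
  linarith

end Pool.Agent.N533.ZK
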